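import Mathlib
import Pool.Agent.Helper20.TransversalDefs
import Pool.Agent.Helper20.TSphere

set_option autoImplicit false

open Filter Topology Pool.Agent.Helper20.Transversal

/-- For every `d ≥ 4` the asymptotic maximal transversal ratios of simplicial `d`-polytopes and of
simplicial `(d-1)`-spheres are equal to `1`; in particular both tend to `1` as `d → ∞`. -/
theorem Pool.Agent.Results.MP_ff81d5_co.TransversalRatioOne.result :
    (∀ d : ℕ, 4 ≤ d → tauP d = 1 ∧ tauS d = 1) ∧
      Tendsto tauP atTop (𝓝 1) ∧ Tendsto tauS atTop (𝓝 1) :=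
  Pool.Agent.Helper20.TGeom.main
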